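import Mathlib
import Pool.Agent.Lib.MP_5a2675_co.D7.KG0

set_option autoImplicit false

namespace Pool.Agent.Results.MP_5a2675_co.SevenTwentieths

/-- The infimum of the real numbers `c` such that every connected cubic graph of large enough
order `n` has a dominating set with at most `c * n` vertices is `7 / 20`. -/
theorem result : IsGLB {c : ℝ | ∃ n₀ : ℕ, ∀ n ≥ n₀, ∀ (G : SimpleGraph (Fin n))
    [DecidableRel G.Adj], G.Connected → G.IsRegularOfDegree 3 →
      ∃ D : Finset (Fin n), (∀ v, v ∉ D → ∃ u ∈ D, G.Adj v u) ∧ (D.card : ℝ) ≤ c * n}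
    (7 / 20) :=
  open Pool.Agent.Lib.MP_5a2675_co.D7 in
  final_of_ty (ty8 (ty12 (ty14 (ty78 u_V1m) u_V2m) u_V1) u_V2)

end Pool.Agent.Results.MP_5a2675_co.SevenTwentieths
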